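import Mathlib

/-!
Central sets in the lattice (MP_d95ec1_co): definitions.
-/

set_option autoImplicit false

namespace Pool.Agent.H61C

/-- `A` is symmetric with respect to `x`: `A = 2 x - A`. -/
def SymmetricAbout {n : ℕ} (A : Set (Fin n → ℤ)) (x : Fin n → ℤ) : Prop :=
  A = (fun a => 2 • x - a) '' A

/-- `E` is central: for every colouring of the lattice with `r ≤ n` colours there are a colour
`i`, an infinite set `A` of points of colour `i` and a point `x` of `E` such that `A` is symmetric
with respect to `x`. -/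
def Central {n : ℕ} (E : Set (Fin n → ℤ)) : Prop :=
  ∀ r : ℕ, r ≤ n → ∀ c : (Fin n → ℤ) → Fin r,
    ∃ (i : Fin r) (A : Set (Fin n → ℤ)) (x : Fin n → ℤ),
      A.Infinite ∧ (∀ a ∈ A, c a = i) ∧ x ∈ E ∧ SymmetricAbout A x

/-- `c(ℤ^n)`: the least cardinality of a finite central set. -/
noncomputable def minCentral (n : ℕ) : ℕ :=
  sInf {k : ℕ | ∃ E : Finset (Fin n → ℤ), E.card = k ∧ Central (E : Set (Fin n → ℤ))}

/-- The discrete Lusternik-Schnirelmann property in dimension `n`: a labelling of `ℤ^n` by `n`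
labels has, arbitrarily far away, near antipodes with the same label. -/
def GridLS (n : ℕ) : Prop :=
  ∀ (l : (Fin n → ℤ) → Fin n) (R : ℤ), ∃ x d : Fin n → ℤ,
    (∃ k, R ≤ |x k|) ∧ (∀ k, |d k| ≤ 1) ∧ l x = l (-(x + d))

end Pool.Agent.H61C
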