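import Mathlib

/-!
Concentration of measure on products of finite sets, in functional form.
-/

set_option autoImplicit false

namespace Pool.Agent.H61C

open Finset

variable {Θ : Type*} [Fintype Θ] [DecidableEq Θ]

/-- The one-dimensional inequality. -/
theorem one_dim [Nonempty Θ] {t L : ℝ} (ht : 0 ≤ t) (hL : 0 ≤ L) (F G : Θ → ℝ)
    (hF : ∀ w, 0 ≤ F w) (hG : ∀ w, 0 ≤ G w)
    (h : ∀ w w', F w * G w' ≤ L * Real.exp (if w = w' then 0 else t)) :
    (∑ w, F w) * (∑ w, G w) ≤ L * Real.cosh (t / 2) ^ 2 * (Fintype.card Θ : ℝ) ^ 2 := by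
  classical
  obtain ⟨w0, hw0⟩ := Finite.exists_max F
  set M := F w0 with hM
  have hcard : (0 : ℝ) < Fintype.card Θ := by exact_mod_cast Fintype.card_pos
  have hRHS : 0 ≤ L * Real.cosh (t / 2) ^ 2 * (Fintype.card Θ : ℝ) ^ 2 := by positivity
  rcases (hF w0).eq_or_lt with h0 | hpos
  · have hF0 : ∀ w, F w = 0 := fun w => le_antisymm ((hw0 w).trans h0.symm.le) (hF w)
    simpa [hF0] using hRHS
  · have hMpos : 0 < M := hpos
    -- bound on `M * G w`
    have het : 0 < Real.exp t := Real.exp_pos t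
    have het1 : 1 ≤ Real.exp t := Real.one_le_exp ht
    have key : ∀ w, M * G w ≤ L * (1 + Real.exp t - Real.exp t * (F w / M)) := by
      intro w
      have h1 : F w * G w ≤ L := by
        have := h w w
        simpa using this
      have h2 : M * G w ≤ L * Real.exp t := by
        have := h w0 w
        refine this.trans ?_
        apply mul_le_mul_of_nonneg_left _ hL
        apply Real.exp_le_exp.2
        split_ifs <;> linarith
      set v := F w / M with hv
      have hv0 : 0 ≤ v := div_nonneg (hF w) hMpos.le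
      have hv1 : v ≤ 1 := (div_le_one hMpos).2 (hw0 w)
      have hFv : F w = v * M := by rw [hv]; field_simp
      rw [hFv] at h1
      set g := M * G w with hg
      have hg0 : 0 ≤ g := mul_nonneg hMpos.le (hG w)
      have h1' : v * g ≤ L := by rw [hg]; linarith [h1]
      rcases le_or_gt (Real.exp t * v) 1 with hc | hc
      · nlinarith
      · -- e^t v > 1
        have hvpos : 0 < v := by
          by_contra hcon
          have : v = 0 := le_antisymm (not_lt.1 hcon) hv0
          rw [this] at hc; simp at hc; linarith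
        -- g ≤ L / v ≤ L (1 + e^t - e^t v)
        have h3 : 1 ≤ v * (1 + Real.exp t - Real.exp t * v) := by nlinarith
        have h4 : v * g ≤ v * (L * (1 + Real.exp t - Real.exp t * v)) := by nlinarith
        exact le_of_mul_le_mul_left h4 hvpos
    have hsum : M * ∑ w, G w ≤ L * ((1 + Real.exp t) * Fintype.card Θ -
        Real.exp t * ((∑ w, F w) / M)) := by
      rw [Finset.mul_sum]
      refine (Finset.sum_le_sum fun w _ => key w).trans ?_
      rw [← Finset.mul_sum, Finset.sum_sub_distrib, Finset.sum_const, ← Finset.mul_sum,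
        ← Finset.sum_div, Finset.card_univ, nsmul_eq_mul]
      apply le_of_eq; ring
    set S := ∑ w, F w with hS
    have hS0 : 0 ≤ S := Finset.sum_nonneg fun w _ => hF w
    set u := S / M with hu
    have hu0 : 0 ≤ u := div_nonneg hS0 hMpos.le
    have hSu : S = u * M := by rw [hu]; field_simp
    have hprod : S * ∑ w, G w ≤ L * (u * ((1 + Real.exp t) * Fintype.card Θ - Real.exp t * u)) := by
      rw [hSu]
      calc u * M * ∑ w, G w = u * (M * ∑ w, G w) := by ring
        _ ≤ u * (L * ((1 + Real.exp t) * Fintype.card Θ - Real.exp t * u)) :=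
          mul_le_mul_of_nonneg_left hsum hu0
        _ = _ := by ring
    refine hprod.trans ?_
    have hcosh : Real.cosh (t / 2) ^ 2 * (4 * Real.exp t) = (1 + Real.exp t) ^ 2 := by
      rw [Real.cosh_eq]
      have e1 : Real.exp t = Real.exp (t / 2) ^ 2 := by
        rw [← Real.exp_nat_mul]; congr 1; push_cast; ring
      have e2 : Real.exp (-(t / 2)) * Real.exp (t / 2) = 1 := by
        rw [← Real.exp_add]; simp
      rw [e1]
      have e3 : (Real.exp (t / 2) + Real.exp (-(t / 2))) * Real.exp (t/2) = 1 + Real.exp (t/2) ^ 2 := by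
        rw [add_mul, e2]; ring
      calc ((Real.exp (t / 2) + Real.exp (-(t / 2))) / 2) ^ 2 * (4 * Real.exp (t / 2) ^ 2)
          = ((Real.exp (t / 2) + Real.exp (-(t / 2))) * Real.exp (t/2)) ^ 2 := by ring
        _ = _ := by rw [e3]
    have hmain : u * ((1 + Real.exp t) * Fintype.card Θ - Real.exp t * u) ≤
        Real.cosh (t / 2) ^ 2 * (Fintype.card Θ : ℝ) ^ 2 := by
      have h5 : 4 * Real.exp t * (u * ((1 + Real.exp t) * Fintype.card Θ - Real.exp t * u)) ≤
          4 * Real.exp t * (Real.cosh (t / 2) ^ 2 * (Fintype.card Θ : ℝ) ^ 2) := by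
        calc 4 * Real.exp t * (u * ((1 + Real.exp t) * Fintype.card Θ - Real.exp t * u))
            ≤ (1 + Real.exp t) ^ 2 * (Fintype.card Θ : ℝ) ^ 2 := by
              nlinarith [sq_nonneg ((1 + Real.exp t) * Fintype.card Θ - 2 * Real.exp t * u)]
          _ = _ := by rw [← hcosh]; ring
      exact le_of_mul_le_mul_left h5 (by positivity)
    calc L * (u * ((1 + Real.exp t) * Fintype.card Θ - Real.exp t * u))
        ≤ L * (Real.cosh (t / 2) ^ 2 * (Fintype.card Θ : ℝ) ^ 2) :=
          mul_le_mul_of_nonneg_left hmain hL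
      _ = _ := by ring

omit [Fintype Θ] in
theorem hammingDist_cons {m : ℕ} (w w' : Θ) (x y : Fin m → Θ) :
    (hammingDist (Fin.cons w x : Fin (m + 1) → Θ) (Fin.cons w' y) : ℕ) =
      (if w = w' then 0 else 1) + hammingDist x y := by
  unfold hammingDist
  rw [Fin.univ_succ]
  rw [Finset.filter_cons]
  split_ifs with h1 h2 h2
  · simp at h1; exact absurd h2 h1
  · simp [Finset.filter_map]
    ring
  · simp [Finset.filter_map]
  · simp at h1; exact absurd h1 h2

/-- Tensorisation. -/
theorem tensor [Nonempty Θ] {t : ℝ} (ht : 0 ≤ t) : ∀ (m : ℕ) (L : ℝ) (_ : 0 ≤ L)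
    (f g : (Fin m → Θ) → ℝ) (_ : ∀ x, 0 ≤ f x) (_ : ∀ x, 0 ≤ g x)
    (_ : ∀ x y, f x * g y ≤ L * Real.exp (t * hammingDist x y)),
    (∑ x, f x) * (∑ x, g x) ≤ L * (Real.cosh (t / 2) ^ 2 * (Fintype.card Θ : ℝ) ^ 2) ^ m := by
  intro m
  induction m with
  | zero =>
    intro L hL f g hf hg h
    have h0 := h (fun i => i.elim0) (fun i => i.elim0)
    simp only [Fintype.sum_unique, pow_zero, mul_one]
    have e1 : (default : Fin 0 → Θ) = fun i => i.elim0 := by ext i; exact i.elim0
    rw [e1]
    simpa using h0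
  | succ m ih =>
    intro L hL f g hf hg h
    have hsplit : ∀ F : (Fin (m + 1) → Θ) → ℝ, ∑ x, F x = ∑ w, ∑ x : Fin m → Θ, F (Fin.cons w x) := by
      intro F
      rw [← Fintype.sum_prod_type']
      exact (Fintype.sum_equiv (Fin.consEquiv (fun _ => Θ)) _ _ (fun p => rfl)).symm
    rw [hsplit f, hsplit g]
    set K := Real.cosh (t / 2) ^ 2 * (Fintype.card Θ : ℝ) ^ 2 with hK
    have hK0 : 0 ≤ K := by positivity
    have step : ∀ w w', (∑ x : Fin m → Θ, f (Fin.cons w x)) * (∑ x : Fin m → Θ, g (Fin.cons w' x)) ≤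
        (L * K ^ m) * Real.exp (if w = w' then 0 else t) := by
      intro w w'
      have := ih (L * Real.exp (if w = w' then 0 else t)) (by positivity)
        (fun x => f (Fin.cons w x)) (fun x => g (Fin.cons w' x)) (fun x => hf _) (fun x => hg _) ?_
      · refine this.trans (le_of_eq ?_)
        ring
      · intro x y
        refine (h _ _).trans (le_of_eq ?_)
        rw [hammingDist_cons, mul_assoc, ← Real.exp_add]
        congr 2
        push_cast
        split_ifs <;> ring
    have := one_dim ht (by positivity : 0 ≤ L * K ^ m) (fun w => ∑ x : Fin m → Θ, f (Fin.cons w x))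
      (fun w => ∑ x : Fin m → Θ, g (Fin.cons w x)) (fun w => Finset.sum_nonneg fun x _ => hf _)
      (fun w => Finset.sum_nonneg fun x _ => hg _) step
    refine this.trans (le_of_eq ?_)
    rw [hK]; ring

/-- Two subsets of a finite product whose densities have product larger than
`exp (-(r+1)^2/m)` contain points at Hamming distance at most `r`. -/
theorem exists_close [Nonempty Θ] {m : ℕ} (hm : 0 < m) (A B : Finset (Fin m → Θ)) (r : ℕ)
    (h : ((Fintype.card Θ : ℝ) ^ m) ^ 2 * Real.exp (-((r : ℝ) + 1) ^ 2 / m) <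
      (A.card : ℝ) * B.card) :
    ∃ a ∈ A, ∃ b ∈ B, hammingDist a b ≤ r := by
  classical
  by_contra hcon
  push Not at hcon
  have hm' : (0 : ℝ) < m := by exact_mod_cast hm
  set t : ℝ := 2 * (r + 1) / m with ht
  have ht0 : 0 ≤ t := by positivity
  have key := tensor (Θ := Θ) ht0 m (Real.exp (-(t * (r + 1)))) (Real.exp_pos _).le
    (fun x => if x ∈ A then 1 else 0) (fun x => if x ∈ B then 1 else 0)
    (fun x => by split_ifs <;> simp) (fun x => by split_ifs <;> simp) (by
      intro x y
      by_cases hx : x ∈ A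
      · by_cases hy : y ∈ B
        · simp only [hx, hy, if_true, mul_one]
          rw [← Real.exp_add]
          apply Real.one_le_exp
          have h1 : r + 1 ≤ hammingDist x y := hcon x hx y hy
          have h2 : ((r : ℝ) + 1) ≤ hammingDist x y := by exact_mod_cast h1
          nlinarith
        · simp only [hy, if_false, mul_zero]; positivity
      · simp only [hx, if_false, zero_mul]; positivity)
  have hA : ∑ x, (if x ∈ A then (1 : ℝ) else 0) = A.card := by simp
  have hB : ∑ x, (if x ∈ B then (1 : ℝ) else 0) = B.card := by simp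
  rw [hA, hB] at key
  have hcosh : Real.cosh (t / 2) ^ 2 ≤ Real.exp (t ^ 2 / 4) := by
    have h1 := Real.cosh_le_exp_half_sq (t / 2)
    calc Real.cosh (t / 2) ^ 2 ≤ (Real.exp ((t / 2) ^ 2 / 2)) ^ 2 :=
          pow_le_pow_left₀ (Real.cosh_pos _).le h1 2
      _ = Real.exp (t ^ 2 / 4) := by rw [← Real.exp_nat_mul]; congr 1; push_cast; ring
  have h2 : (Real.cosh (t / 2) ^ 2 * (Fintype.card Θ : ℝ) ^ 2) ^ m ≤
      Real.exp (m * (t ^ 2 / 4)) * ((Fintype.card Θ : ℝ) ^ m) ^ 2 := by
    have : (Real.cosh (t / 2) ^ 2) ^ m ≤ Real.exp (m * (t ^ 2 / 4)) := by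
      rw [Real.exp_nat_mul]
      exact pow_le_pow_left₀ (by positivity) hcosh m
    calc (Real.cosh (t / 2) ^ 2 * (Fintype.card Θ : ℝ) ^ 2) ^ m
        = (Real.cosh (t / 2) ^ 2) ^ m * ((Fintype.card Θ : ℝ) ^ m) ^ 2 := by
          rw [mul_pow]; ring
      _ ≤ Real.exp (m * (t ^ 2 / 4)) * ((Fintype.card Θ : ℝ) ^ m) ^ 2 := by gcongr
  have h3 : (A.card : ℝ) * B.card ≤ ((Fintype.card Θ : ℝ) ^ m) ^ 2 *
      Real.exp (-((r : ℝ) + 1) ^ 2 / m) := by
    refine key.trans ?_
    calc Real.exp (-(t * (r + 1))) * (Real.cosh (t / 2) ^ 2 * (Fintype.card Θ : ℝ) ^ 2) ^ m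
        ≤ Real.exp (-(t * (r + 1))) * (Real.exp (m * (t ^ 2 / 4)) *
            ((Fintype.card Θ : ℝ) ^ m) ^ 2) := by gcongr
      _ = (Real.exp (-(t * (r + 1)) + m * (t ^ 2 / 4))) * ((Fintype.card Θ : ℝ) ^ m) ^ 2 := by
          rw [Real.exp_add]; ring
      _ = _ := by
          rw [mul_comm]; congr 2
          rw [ht]; field_simp; ring
  linarith

end Pool.Agent.H61C
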