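import Pool.Agent.Lib.H61C.Defs
import Pool.Agent.Lib.H61C.Conc

/-!
From the discrete Lusternik-Schnirelmann property and concentration of measure to central sets.
-/

set_option autoImplicit false

namespace Pool.Agent.H61C

open Finset

/-- A sufficient condition for being central: sums of far points of the same colour lie in `E`. -/
theorem central_of_far {n : ℕ} (E : Finset (Fin n → ℤ))
    (h : ∀ (c : (Fin n → ℤ) → Fin n) (R : ℤ), ∃ a b : Fin n → ℤ,
      (∃ k, R ≤ |a k|) ∧ c a = c b ∧ a + b ∈ E) : Central (E : Set (Fin n → ℤ)) := by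
  classical
  intro r hr c
  rcases Nat.eq_zero_or_pos n with hn | hn
  · subst hn
    obtain rfl : r = 0 := by omega
    exact (c 0).elim0
  -- choose pairs
  set c' : (Fin n → ℤ) → Fin n := fun a => Fin.castLE hr (c (2 • a)) with hc'
  choose a b hfar hcol hmem using h c'
  -- pigeonhole on `(x, colour)`
  obtain ⟨⟨⟨x, hx⟩, i⟩, hp⟩ := Finite.exists_infinite_fiber
    (fun k : ℕ => ((⟨a (k : ℤ) + b k, hmem k⟩, c (2 • a (k : ℤ))) : {x // x ∈ E} × Fin r))
  set S := (fun k : ℕ => ((⟨a (k : ℤ) + b k, hmem k⟩, c (2 • a (k : ℤ))) :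
    {x // x ∈ E} × Fin r)) ⁻¹' {(⟨x, hx⟩, i)} with hSdef
  have hS : S.Infinite := Set.infinite_coe_iff.1 hp
  have hS1 : ∀ k ∈ S, a (k : ℤ) + b k = x ∧ c (2 • a (k : ℤ)) = i := by
    intro k hk
    rw [hSdef, Set.mem_preimage, Set.mem_singleton_iff] at hk
    have h1 := congrArg Prod.fst hk
    have h2 := congrArg Prod.snd hk
    exact ⟨congrArg Subtype.val h1, h2⟩
  refine ⟨i, (fun k : ℕ => 2 • a (k : ℤ)) '' S ∪ (fun k : ℕ => 2 • b (k : ℤ)) '' S, x, ?_, ?_,
    Finset.mem_coe.2 hx, ?_⟩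
  · -- infinite
    apply Set.Infinite.mono Set.subset_union_left
    intro hfin
    -- the image is unbounded
    have hbdd : ∃ B : ℤ, ∀ v ∈ (fun k : ℕ => 2 • a (k : ℤ)) '' S, ∀ j, |v j| ≤ B := by
      have hfin2 := hfin.toFinset
      obtain ⟨B, hB⟩ : ∃ B : ℤ, ∀ v ∈ hfin.toFinset, ∑ j, |v j| ≤ B := by
        refine ⟨∑ v ∈ hfin.toFinset, ∑ j, |v j|, fun v hv => ?_⟩
        exact Finset.single_le_sum (f := fun v : Fin n → ℤ => ∑ j, |v j|)
          (fun w _ => Finset.sum_nonneg fun j _ => abs_nonneg _) hv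
      refine ⟨B, fun v hv j => ?_⟩
      have hv' : v ∈ hfin.toFinset := by simpa using hv
      refine le_trans ?_ (hB v hv')
      exact Finset.single_le_sum (f := fun j => |v j|) (fun j _ => abs_nonneg _) (Finset.mem_univ j)
    obtain ⟨B, hB⟩ := hbdd
    obtain ⟨k, hkS, hk⟩ := hS.exists_gt (B.toNat + 1)
    obtain ⟨j, hj⟩ := hfar k
    have h1 := hB _ ⟨k, hkS, rfl⟩ j
    simp only [Pi.smul_apply, smul_eq_mul, nsmul_eq_mul, Nat.cast_ofNat, abs_mul, abs_two] at h1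
    have h2 : (k : ℤ) > B := by omega
    have h3 := abs_nonneg (a (k : ℤ) j)
    omega
  · rintro v (⟨k, hk, rfl⟩ | ⟨k, hk, rfl⟩)
    · exact (hS1 k hk).2
    · have h1 := hcol k
      rw [hc'] at h1
      simp only [Fin.castLE_inj] at h1
      rw [← (hS1 k hk).2]
      exact h1.symm
  · unfold SymmetricAbout
    have hab : ∀ k ∈ S, 2 • x - 2 • a (k : ℤ) = 2 • b k ∧ 2 • x - 2 • b (k : ℤ) = 2 • a k := by
      intro k hk
      rw [← (hS1 k hk).1]
      constructor <;> (rw [smul_add]; abel)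
    ext v
    constructor
    · rintro (⟨k, hk, rfl⟩ | ⟨k, hk, rfl⟩)
      · exact ⟨2 • b k, Or.inr ⟨k, hk, rfl⟩, (hab k hk).2⟩
      · exact ⟨2 • a k, Or.inl ⟨k, hk, rfl⟩, (hab k hk).1⟩
    · rintro ⟨w, (⟨k, hk, rfl⟩ | ⟨k, hk, rfl⟩), rfl⟩
      · exact Or.inr ⟨k, hk, (hab k hk).1.symm⟩
      · exact Or.inl ⟨k, hk, (hab k hk).2.symm⟩

end Pool.Agent.H61C
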