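import Pool.Agent.Lib.H61C.Main
import Pool.Agent.Lib.Helper4.CS.LS

/-!
Cardinality of the block sets and the final bound.
-/

set_option autoImplicit false

namespace Pool.Agent.H61C

open Finset

theorem gridLS_all {n : ℕ} (hn : 0 < n) : GridLS n := by
  intro l R
  obtain ⟨v, v', i, h1, h2, h3, h4⟩ := Pool.Agent.Lib.Helper4.CS.gridLS hn
    (show (0 : ℤ) < max R 1 by positivity) (fun u => (l u : ℕ)) (fun u => (l u).2)
  refine ⟨v, fun k => -(v k + v' k), ⟨i, ?_⟩, ?_, ?_⟩
  · rcases h1 with h | h
    · rw [h, abs_of_pos (by positivity)]; exact le_max_left _ _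
    · rw [h, abs_neg, abs_of_pos (by positivity)]; exact le_max_left _ _
  · intro k
    have := h3 k
    rw [abs_neg, abs_le]
    exact this
  · have : -(v + fun k => -(v k + v' k)) = v' := by
      funext k; simp
    rw [this]
    exact Fin.ext h4

open Classical in
/-- Decoding of block data. -/
noncomputable def dec {n m b r : ℕ} (j : Fin n → Fin m) (pos : Fin n → Fin b)
    (γ : Fin r → Fin m × Bool × (Fin b → Bool)) : Fin n → ℤ :=
  fun k => if h : ∃ t, (γ t).1 = j k then
    (if (γ h.choose).2.2 (pos k) then (if (γ h.choose).2.1 then 1 else -1) else 0) else 0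

theorem card_blockSet {n m b r : ℕ} (hm : 0 < m) (j : Fin n → Fin m) (pos : Fin n → Fin b)
    (hinj : ∀ k l, j k = j l → pos k = pos l → k = l) :
    (blockSet j r).card ≤ (m * 2 ^ (b + 1)) ^ r := by
  classical
  have hsub : blockSet j r ⊆ (univ : Finset (Fin r → Fin m × Bool × (Fin b → Bool))).image
      (dec j pos) := by
    intro z hz
    rw [blockSet, mem_filter, Fintype.mem_piFinset] at hz
    obtain ⟨hz1, hz2, hz3⟩ := hz
    set T := univ.filter fun i : Fin m => ∃ k, j k = i ∧ z k ≠ 0 with hT
    -- a map covering `T`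
    obtain ⟨β, hβ⟩ : ∃ β : Fin r → Fin m, ∀ i ∈ T, ∃ t, β t = i := by
      refine ⟨fun t => T.toList.getD t ⟨0, hm⟩, fun i hi => ?_⟩
      have hi' : i ∈ T.toList := by simpa using hi
      obtain ⟨s, hs, hs2⟩ := List.getElem_of_mem hi'
      have hlen : T.toList.length = T.card := Finset.length_toList T
      refine ⟨⟨s, by omega⟩, ?_⟩
      simp only
      rw [List.getD_eq_getElem _ _ hs]
      exact hs2
    set data : Fin m → Bool × (Fin b → Bool) := fun i =>
      (decide (∃ k, j k = i ∧ z k = 1), fun q => decide (∃ k, j k = i ∧ pos k = q ∧ z k ≠ 0))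
      with hdata
    rw [mem_image]
    refine ⟨fun t => (β t, data (β t)), mem_univ _, ?_⟩
    funext k
    unfold dec
    have hzk := hz1 k
    simp only [mem_insert, mem_singleton] at hzk
    by_cases hk : z k = 0
    · rw [hk]
      split_ifs with h1 h2 h3
      · exfalso
        have hspec := h1.choose_spec
        simp only at hspec
        simp only [hdata, decide_eq_true_eq] at h2
        obtain ⟨k', hk1, hk2, hk3⟩ := h2
        rw [hspec] at hk1
        have := hinj k' k hk1 hk2
        rw [this] at hk3
        exact hk3 hk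
      · exfalso
        have hspec := h1.choose_spec
        simp only at hspec
        simp only [hdata, decide_eq_true_eq] at h2
        obtain ⟨k', hk1, hk2, hk3⟩ := h2
        rw [hspec] at hk1
        have := hinj k' k hk1 hk2
        rw [this] at hk3
        exact hk3 hk
      · rfl
      · rfl
    · have hjT : j k ∈ T := by
        rw [hT, mem_filter]
        exact ⟨mem_univ _, k, rfl, hk⟩
      have hex : ∃ t, ((fun t => (β t, data (β t))) t : Fin m × Bool × (Fin b → Bool)).1 = j k :=
        hβ _ hjT
      rw [dif_pos hex]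
      have hspec := hex.choose_spec
      simp only at hspec
      have h2 : (data (β hex.choose)).2 (pos k) = true := by
        simp only [hdata, decide_eq_true_eq]
        exact ⟨k, hspec.symm, rfl, hk⟩
      rw [if_pos h2]
      rcases hzk with h | h | h
      · have h3 : (data (β hex.choose)).1 = false := by
          simp only [hdata, decide_eq_false_iff_not]
          rintro ⟨k', hk1, hk2⟩
          rw [hspec] at hk1
          have := hz2 k' k hk1
          rw [hk2, h] at this
          norm_num at this
        rw [if_neg (by rw [h3]; simp), h]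
      · exact absurd h hk
      · have h3 : (data (β hex.choose)).1 = true := by
          simp only [hdata, decide_eq_true_eq]
          exact ⟨k, hspec.symm, h⟩
        rw [if_pos h3, h]
  refine (card_le_card hsub).trans (card_image_le.trans (le_of_eq ?_))
  rw [Finset.card_univ]
  simp only [Fintype.card_fun, Fintype.card_prod, Fintype.card_fin, Fintype.card_bool]
  congr 1
  rw [pow_succ]; ring

/-- General upper bound. -/
theorem minCentral_le {n : ℕ} (hn : 0 < n) (b : ℕ) (hb : 0 < b) (r : ℕ)
    (hr : 2 * (n : ℝ) ^ 2 * Real.exp (-((r : ℝ) + 1) ^ 2 / ((n / b + 1 : ℕ) : ℝ)) < 1) :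
    minCentral n ≤ ((n / b + 1) * 2 ^ (b + 1)) ^ r := by
  set m := n / b + 1 with hm
  set j : Fin n → Fin m := fun k => ⟨k / b, by
    have := Nat.div_le_div_right (c := b) k.2.le
    omega⟩ with hj
  set pos : Fin n → Fin b := fun k => ⟨k % b, Nat.mod_lt _ hb⟩ with hpos
  have h1 := central_blockSet hn (Nat.succ_pos _) (gridLS_all hn) j r hr
  have h2 := card_blockSet (r := r) (Nat.succ_pos _) j pos (by
    intro k l h1 h2
    simp only [hj, hpos, Fin.mk.injEq] at h1 h2
    apply Fin.ext
    rw [← Nat.div_add_mod (k : ℕ) b, ← Nat.div_add_mod (l : ℕ) b, h1, h2])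
  refine le_trans (Nat.sInf_le ⟨blockSet j r, rfl, h1⟩) h2

end Pool.Agent.H61C
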