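import Pool.Agent.Lib.H61C.Assembly

/-!
The main combinatorial theorem: block-sign vectors with few non-zero blocks form a central set.
-/

set_option autoImplicit false

namespace Pool.Agent.H61C

open Finset

/-- The vectors with entries in `{-1, 0, 1}`, of constant sign on each block of the partition
given by `j`, and non-zero on at most `r` blocks. -/
def blockSet {n m : ℕ} (j : Fin n → Fin m) (r : ℕ) : Finset (Fin n → ℤ) :=
  (Fintype.piFinset fun _ : Fin n => ({-1, 0, 1} : Finset ℤ)).filter fun z =>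
    (∀ k l, j k = j l → 0 ≤ z k * z l) ∧
      (univ.filter fun i : Fin m => ∃ k, j k = i ∧ z k ≠ 0).card ≤ r

/-- Rounding with thresholds. -/
def rnd {n m M : ℕ} (j : Fin n → Fin m) (x : Fin n → ℤ) (θ : Fin m → Fin M) : Fin n → ℤ :=
  fun k => (x k + (θ (j k) : ℕ)) / (M : ℤ)

theorem neg_ediv_aux (M : ℤ) (hM : 0 < M) (x t : ℤ) :
    -((-x + t) / M) = (x + (M - 1 - t)) / M := by
  have h1 := Int.emod_add_mul_ediv (-x + t) M
  have h2 := Int.emod_nonneg (-x + t) hM.ne'
  have h3 := Int.emod_lt_of_pos (-x + t) hM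
  symm
  rw [Int.ediv_eq_iff_of_pos hM]
  constructor <;> nlinarith

theorem rnd_neg {n m M : ℕ} (hM : 0 < M) (j : Fin n → Fin m) (x : Fin n → ℤ)
    (θ : Fin m → Fin M) : -rnd j (-x) θ = rnd j x (fun i => Fin.rev (θ i)) := by
  funext k
  have h := neg_ediv_aux (M : ℤ) (by exact_mod_cast hM) (x k) ((θ (j k) : ℕ) : ℤ)
  simp only [rnd, Pi.neg_apply]
  rw [h]
  congr 2
  rw [Fin.val_rev]
  have := (θ (j k)).2
  push_cast [Nat.cast_sub (show (θ (j k) : ℕ) + 1 ≤ M by omega)]
  ring

/-- Crossing a threshold determines it. -/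
theorem cross_aux (M : ℤ) (hM : 0 < M) (x d t t' : ℤ) (hd : |d| ≤ 1)
    (ht : 0 ≤ t) (ht' : 0 ≤ t') (htM : t < M) (htM' : t' < M)
    (h : (x + d + t) / M ≠ (x + t) / M) (h' : (x + d + t') / M ≠ (x + t') / M) : t = t' := by
  have hd' := abs_le.1 hd
  have e1 := Int.emod_add_mul_ediv (x + t) M
  have e2 := Int.emod_nonneg (x + t) hM.ne'
  have e3 := Int.emod_lt_of_pos (x + t) hM
  have e1' := Int.emod_add_mul_ediv (x + t') M
  have e2' := Int.emod_nonneg (x + t') hM.ne'
  have e3' := Int.emod_lt_of_pos (x + t') hM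
  have key : ∀ s : ℤ, (x + d + s) / M ≠ (x + s) / M →
      (d = 1 ∧ (x + s) % M = M - 1) ∨ (d = -1 ∧ (x + s) % M = 0) := by
    intro s hs
    have f1 := Int.emod_add_mul_ediv (x + s) M
    have f2 := Int.emod_nonneg (x + s) hM.ne'
    have f3 := Int.emod_lt_of_pos (x + s) hM
    by_contra hcon
    apply hs
    rw [Int.ediv_eq_iff_of_pos hM]
    have hd3 : d = -1 ∨ d = 0 ∨ d = 1 := by omega
    push Not at hcon
    rcases hd3 with rfl | rfl | rfl
    · have : (x + s) % M ≠ 0 := hcon.2 rfl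
      constructor
      · have : 1 ≤ (x + s) % M := by omega
        nlinarith
      · nlinarith
    · constructor <;> nlinarith
    · have : (x + s) % M ≠ M - 1 := hcon.1 rfl
      constructor
      · nlinarith
      · have : (x + s) % M + 1 < M := by omega
        nlinarith
  have k1 := key t h
  have k2 := key t' h'
  have hmod : (x + t) % M = (x + t') % M := by
    rcases k1 with ⟨a1, a2⟩ | ⟨a1, a2⟩ <;> rcases k2 with ⟨b1, b2⟩ | ⟨b1, b2⟩
    · rw [a2, b2]
    · omega
    · omega
    · rw [a2, b2]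
  -- t - t' divisible by M
  set q := (x + t) / M
  set q' := (x + t') / M
  have hdiff : t - t' = M * (q - q') := by
    have : (x + t) - (x + t') = M * (q - q') := by
      rw [← e1, ← e1', hmod]; ring
    linarith
  have hq : q - q' = 0 := by
    by_contra hne
    rcases lt_or_gt_of_ne hne with hlt | hgt
    · have : q - q' ≤ -1 := by omega
      nlinarith
    · have : 1 ≤ q - q' := by omega
      nlinarith
  rw [hq] at hdiff
  linarith

theorem card_fix {m M : ℕ} (i : Fin m) (t : Fin M) :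
    M * (univ.filter fun θ : Fin m → Fin M => θ i = t).card ≤ M ^ m := by
  classical
  -- the sets for various t are disjoint translates: use the product formula
  have h1 : (univ.filter fun θ : Fin m → Fin M => θ i = t) =
      Fintype.piFinset (fun l : Fin m => if l = i then {t} else univ) := by
    ext θ
    simp only [mem_filter, mem_univ, true_and, Fintype.mem_piFinset]
    constructor
    · intro h l
      by_cases hl : l = i
      · subst hl; simp [h]
      · simp [hl]
    · intro h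
      simpa using h i
  rw [h1, Fintype.card_piFinset]
  have h2 : ∏ l : Fin m, (if l = i then ({t} : Finset (Fin M)) else univ).card =
      ∏ l ∈ univ.erase i, M := by
    rw [← Finset.mul_prod_erase univ _ (mem_univ i)]
    simp only [if_true, card_singleton, one_mul]
    apply Finset.prod_congr rfl
    intro l hl
    rw [if_neg (Finset.ne_of_mem_erase hl)]
    simp
  rw [h2, Finset.prod_const, Finset.card_erase_of_mem (mem_univ i), Finset.card_univ,
    Fintype.card_fin, ← pow_succ']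
  have : 0 < m := Fin.pos i
  rw [Nat.sub_add_cancel this]

/-- The number of thresholds for which a small shift changes the rounding. -/
theorem card_cross {n m M : ℕ} (hM : 0 < M) (j : Fin n → Fin m) (x d : Fin n → ℤ)
    (hd : ∀ k, |d k| ≤ 1) :
    M * (univ.filter fun θ : Fin m → Fin M => rnd j (x + d) θ ≠ rnd j x θ).card ≤ n * M ^ m := by
  classical
  have hM' : (0 : ℤ) < M := by exact_mod_cast hM
  have hsub : (univ.filter fun θ : Fin m → Fin M => rnd j (x + d) θ ≠ rnd j x θ) ⊆
      (univ : Finset (Fin n)).biUnion fun k =>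
        univ.filter fun θ : Fin m → Fin M => rnd j (x + d) θ k ≠ rnd j x θ k := by
    intro θ hθ
    simp only [mem_filter, mem_univ, true_and, mem_biUnion] at hθ ⊢
    by_contra hcon
    push Not at hcon
    exact hθ (funext hcon)
  have hk : ∀ k : Fin n, M * (univ.filter fun θ : Fin m → Fin M =>
      rnd j (x + d) θ k ≠ rnd j x θ k).card ≤ M ^ m := by
    intro k
    by_cases hex : ∃ θ0 : Fin m → Fin M, rnd j (x + d) θ0 k ≠ rnd j x θ0 k
    · obtain ⟨θ0, h0⟩ := hex
      refine le_trans (Nat.mul_le_mul_left M (card_le_card ?_)) (card_fix (j k) (θ0 (j k)))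
      intro θ hθ
      simp only [mem_filter, mem_univ, true_and] at hθ ⊢
      apply Fin.ext
      have := cross_aux (M : ℤ) hM' (x k) (d k) ((θ (j k) : ℕ) : ℤ) ((θ0 (j k) : ℕ) : ℤ) (hd k)
        (by positivity) (by positivity) (by exact_mod_cast (θ (j k)).2)
        (by exact_mod_cast (θ0 (j k)).2) (by simpa [rnd] using hθ) (by simpa [rnd] using h0)
      exact_mod_cast this
    · push Not at hex
      have : (univ.filter fun θ : Fin m → Fin M => rnd j (x + d) θ k ≠ rnd j x θ k) = ∅ := by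
        rw [filter_eq_empty_iff]
        intro θ _
        simpa using hex θ
      rw [this]; simp
  calc M * (univ.filter fun θ : Fin m → Fin M => rnd j (x + d) θ ≠ rnd j x θ).card
      ≤ M * ((univ : Finset (Fin n)).biUnion fun k =>
        univ.filter fun θ : Fin m → Fin M => rnd j (x + d) θ k ≠ rnd j x θ k).card :=
        Nat.mul_le_mul_left M (card_le_card hsub)
    _ ≤ M * ∑ k : Fin n, (univ.filter fun θ : Fin m → Fin M =>
        rnd j (x + d) θ k ≠ rnd j x θ k).card := Nat.mul_le_mul_left M card_biUnion_le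
    _ = ∑ k : Fin n, M * (univ.filter fun θ : Fin m → Fin M =>
        rnd j (x + d) θ k ≠ rnd j x θ k).card := Finset.mul_sum _ _ _
    _ ≤ ∑ _k : Fin n, M ^ m := Finset.sum_le_sum fun k _ => hk k
    _ = n * M ^ m := by simp

/-- The difference of two roundings of the same point. -/
theorem diff_mem {n m M : ℕ} (hM : 0 < M) (j : Fin n → Fin m) (x : Fin n → ℤ) (r : ℕ)
    (θ θ' : Fin m → Fin M) (h : hammingDist θ θ' ≤ r) :
    rnd j x θ + -rnd j x θ' ∈ blockSet j r := by
  classical
  have hM' : (0 : ℤ) < M := by exact_mod_cast hM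
  have hval : ∀ k, rnd j x θ k - rnd j x θ' k =
      (if θ (j k) = θ' (j k) then 0 else
        (rnd j x θ k - rnd j x θ' k)) := by
    intro k
    split_ifs with hk
    · simp [rnd, hk]
    · rfl
  -- sign
  have hmono : ∀ k, (θ' (j k) ≤ θ (j k) → 0 ≤ rnd j x θ k - rnd j x θ' k ∧
      rnd j x θ k - rnd j x θ' k ≤ 1) := by
    intro k hk
    have hk' : ((θ' (j k) : ℕ) : ℤ) ≤ ((θ (j k) : ℕ) : ℤ) := by exact_mod_cast hk
    have hlt : ((θ (j k) : ℕ) : ℤ) < M := by exact_mod_cast (θ (j k)).2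
    have h0 : (0 : ℤ) ≤ ((θ' (j k) : ℕ) : ℤ) := by positivity
    simp only [rnd]
    constructor
    · have : (x k + ((θ' (j k) : ℕ) : ℤ)) / M ≤ (x k + ((θ (j k) : ℕ) : ℤ)) / M :=
        Int.ediv_le_ediv hM' (by linarith)
      linarith
    · have : (x k + ((θ (j k) : ℕ) : ℤ)) / M ≤ (x k + ((θ' (j k) : ℕ) : ℤ) + M) / M :=
        Int.ediv_le_ediv hM' (by linarith)
      rw [Int.add_ediv_of_dvd_right (dvd_refl _), Int.ediv_self hM'.ne'] at this
      linarith
  have hmono' : ∀ k, (θ (j k) ≤ θ' (j k) → rnd j x θ k - rnd j x θ' k ≤ 0 ∧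
      -1 ≤ rnd j x θ k - rnd j x θ' k) := by
    intro k hk
    have hk' : ((θ (j k) : ℕ) : ℤ) ≤ ((θ' (j k) : ℕ) : ℤ) := by exact_mod_cast hk
    have hlt : ((θ' (j k) : ℕ) : ℤ) < M := by exact_mod_cast (θ' (j k)).2
    have h0 : (0 : ℤ) ≤ ((θ (j k) : ℕ) : ℤ) := by positivity
    simp only [rnd]
    constructor
    · have : (x k + ((θ (j k) : ℕ) : ℤ)) / M ≤ (x k + ((θ' (j k) : ℕ) : ℤ)) / M :=
        Int.ediv_le_ediv hM' (by linarith)
      linarith
    · have : (x k + ((θ' (j k) : ℕ) : ℤ)) / M ≤ (x k + ((θ (j k) : ℕ) : ℤ) + M) / M :=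
        Int.ediv_le_ediv hM' (by linarith)
      rw [Int.add_ediv_of_dvd_right (dvd_refl _), Int.ediv_self hM'.ne'] at this
      linarith
  rw [blockSet, mem_filter, Fintype.mem_piFinset]
  refine ⟨fun k => ?_, fun k l hkl => ?_, ?_⟩
  · simp only [Pi.add_apply, Pi.neg_apply, mem_insert, mem_singleton]
    rcases le_total (θ' (j k)) (θ (j k)) with hk | hk
    · have := hmono k hk; omega
    · have := hmono' k hk; omega
  · simp only [Pi.add_apply, Pi.neg_apply]
    rcases le_total (θ' (j k)) (θ (j k)) with hk | hk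
    · have h1 := hmono k hk
      have h2 := hmono l (by rw [← hkl]; exact hk)
      apply mul_nonneg <;> linarith
    · have h1 := hmono' k hk
      have h2 := hmono' l (by rw [← hkl]; exact hk)
      apply mul_nonneg_of_nonpos_of_nonpos <;> linarith
  · refine le_trans (card_le_card ?_) h
    intro i hi
    simp only [mem_filter, mem_univ, true_and] at hi ⊢
    obtain ⟨k, rfl, hk⟩ := hi
    intro hcon
    apply hk
    simp [rnd, hcon]

/-- Main theorem. -/
theorem central_blockSet {n m : ℕ} (hn : 0 < n) (hm : 0 < m) (hLS : GridLS n)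
    (j : Fin n → Fin m) (r : ℕ)
    (hr : 2 * (n : ℝ) ^ 2 * Real.exp (-((r : ℝ) + 1) ^ 2 / m) < 1) :
    Central (blockSet j r : Set (Fin n → ℤ)) := by
  classical
  apply central_of_far
  intro c R
  set M : ℕ := 2 * n ^ 2 with hMdef
  have hM : 0 < M := by positivity
  have hM' : (0 : ℤ) < M := by exact_mod_cast hM
  haveI : Nonempty (Fin M) := ⟨⟨0, hM⟩⟩
  -- majority colours
  have hmaj : ∀ x : Fin n → ℤ, ∃ i : Fin n,
      M ^ m ≤ n * (univ.filter fun θ : Fin m → Fin M => c (rnd j x θ) = i).card := by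
    intro x
    by_contra hcon
    push Not at hcon
    have h1 : ∑ i : Fin n, (univ.filter fun θ : Fin m → Fin M => c (rnd j x θ) = i).card =
        M ^ m := by
      rw [← Finset.card_eq_sum_card_fiberwise (fun θ _ => Finset.mem_univ (c (rnd j x θ)))]
      simp
    have h2 : ∑ i : Fin n, n * (univ.filter fun θ : Fin m → Fin M => c (rnd j x θ) = i).card <
        ∑ _i : Fin n, M ^ m :=
      Finset.sum_lt_sum_of_nonempty ⟨⟨0, hn⟩, mem_univ _⟩ fun i _ => hcon i
    rw [← Finset.mul_sum, h1] at h2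
    simp at h2
  choose l hl using hmaj
  obtain ⟨x, d, ⟨k0, hk0⟩, hd, hlab⟩ := hLS l ((M : ℤ) * (|R| + 2))
  set A := univ.filter fun θ : Fin m → Fin M => c (rnd j x θ) = l x with hA
  set B1 := univ.filter fun θ : Fin m → Fin M => c (-rnd j (x + d) θ) = l x with hB1
  have hcardA : M ^ m ≤ n * A.card := hl x
  have hcardB1 : M ^ m ≤ n * B1.card := by
    have h := hl (-(x + d))
    rw [← hlab] at h
    refine h.trans (Nat.mul_le_mul_left n (le_of_eq ?_))
    apply Finset.card_bij (fun θ _ => fun i => Fin.rev (θ i))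
    · intro θ hθ
      rw [hB1, mem_filter]
      refine ⟨mem_univ _, ?_⟩
      rw [mem_filter] at hθ
      rw [← rnd_neg hM, neg_neg]
      exact hθ.2
    · intro θ _ θ' _ h
      funext i
      exact Fin.rev_injective (congrFun h i)
    · intro θ hθ
      rw [hB1, mem_filter] at hθ
      refine ⟨fun i => Fin.rev (θ i), ?_, ?_⟩
      · rw [mem_filter]
        refine ⟨mem_univ _, ?_⟩
        have h1 := rnd_neg hM j (x + d) (fun i => Fin.rev (θ i))
        simp only [Fin.rev_rev] at h1
        rw [← neg_neg (rnd j (-(x + d)) _), h1]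
        exact hθ.2
      · funext i; simp
  set C := univ.filter fun θ : Fin m → Fin M => rnd j (x + d) θ ≠ rnd j x θ with hC
  have hcardC : M * C.card ≤ n * M ^ m := card_cross hM j x d hd
  set B := B1 \ C with hB
  have hcardB : B1.card ≤ B.card + C.card := by
    rw [hB]
    have := Finset.le_card_sdiff C B1
    omega
  -- real bounds
  have hn' : (0 : ℝ) < n := by exact_mod_cast hn
  have hMr : (M : ℝ) = 2 * (n : ℝ) ^ 2 := by rw [hMdef]; push_cast; ring
  have hMpos : (0 : ℝ) < M := by exact_mod_cast hM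
  have rA : (M : ℝ) ^ m ≤ n * A.card := by exact_mod_cast hcardA
  have rB1 : (M : ℝ) ^ m ≤ n * B1.card := by exact_mod_cast hcardB1
  have rC : (M : ℝ) * C.card ≤ n * (M : ℝ) ^ m := by exact_mod_cast hcardC
  have rB : (B1.card : ℝ) ≤ B.card + C.card := by exact_mod_cast hcardB
  have rB' : (M : ℝ) ^ m ≤ 2 * n * B.card := by
    -- n C ≤ M^m / 2
    have h1 : (n : ℝ) * C.card ≤ (M : ℝ) ^ m / 2 := by
      have : 2 * (n : ℝ) ^ 2 * C.card ≤ n * (M : ℝ) ^ m := by rw [← hMr]; exact rC
      have h2 : (n : ℝ) * (2 * (n * C.card)) ≤ n * (M : ℝ) ^ m := by nlinarith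
      have h3 := le_of_mul_le_mul_left h2 hn'
      linarith
    have h2 : (n : ℝ) * B1.card ≤ n * B.card + n * C.card := by nlinarith
    linarith
  have hbig : (((Fintype.card (Fin M) : ℕ) : ℝ) ^ m) ^ 2 * Real.exp (-((r : ℝ) + 1) ^ 2 / m) <
      (A.card : ℝ) * B.card := by
    rw [Fintype.card_fin]
    have hP : 0 < (M : ℝ) ^ m := by positivity
    have h1 : ((M : ℝ) ^ m) ^ 2 ≤ 2 * (n : ℝ) ^ 2 * (A.card * B.card) := by
      calc ((M : ℝ) ^ m) ^ 2 = (M : ℝ) ^ m * (M : ℝ) ^ m := sq _
        _ ≤ (n * A.card) * (2 * n * B.card) := by gcongr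
        _ = _ := by ring
    have hAB : 0 < (A.card : ℝ) * B.card := by
      by_contra hcon
      have : (A.card : ℝ) * B.card ≤ 0 := not_lt.1 hcon
      nlinarith [sq_nonneg (n : ℝ), pow_pos hP 2]
    calc ((M : ℝ) ^ m) ^ 2 * Real.exp (-((r : ℝ) + 1) ^ 2 / m)
        ≤ 2 * (n : ℝ) ^ 2 * (A.card * B.card) * Real.exp (-((r : ℝ) + 1) ^ 2 / m) := by gcongr
      _ = (A.card * B.card) * (2 * (n : ℝ) ^ 2 * Real.exp (-((r : ℝ) + 1) ^ 2 / m)) := by ring
      _ < (A.card * B.card) * 1 := by gcongr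
      _ = _ := mul_one _
  obtain ⟨θ, hθ, θ', hθ', hdist⟩ := exists_close hm A B r hbig
  refine ⟨rnd j x θ, -rnd j x θ', ⟨k0, ?_⟩, ?_, diff_mem hM j x r θ θ' hdist⟩
  · -- far
    by_contra hcon
    push Not at hcon
    have h1 := Int.emod_add_mul_ediv (x k0 + ((θ (j k0) : ℕ) : ℤ)) M
    have h2 := Int.emod_nonneg (x k0 + ((θ (j k0) : ℕ) : ℤ)) hM'.ne'
    have h3 := Int.emod_lt_of_pos (x k0 + ((θ (j k0) : ℕ) : ℤ)) hM'
    have h4 : ((θ (j k0) : ℕ) : ℤ) < M := by exact_mod_cast (θ (j k0)).2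
    have h5 : (0 : ℤ) ≤ ((θ (j k0) : ℕ) : ℤ) := by positivity
    have h6 : |rnd j x θ k0| ≤ |R| := (hcon.trans_le (le_abs_self R)).le
    have h7 := abs_le.1 h6
    set q := rnd j x θ k0 with hq
    have hq' : (x k0 + ((θ (j k0) : ℕ) : ℤ)) / M = q := rfl
    rw [hq'] at h1
    have h8 : (M : ℤ) * q ≤ M * |R| := mul_le_mul_of_nonneg_left h7.2 hM'.le
    have h9 : (M : ℤ) * (-|R|) ≤ M * q := mul_le_mul_of_nonneg_left h7.1 hM'.le
    have h10 : |x k0| < M * (|R| + 2) := by
      rw [abs_lt]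
      constructor <;> nlinarith
    linarith
  · rw [hA, mem_filter] at hθ
    rw [hB, mem_sdiff, hB1, hC, mem_filter, mem_filter] at hθ'
    have hnc : rnd j (x + d) θ' = rnd j x θ' := by
      by_contra hne
      exact hθ'.2 ⟨mem_univ _, hne⟩
    rw [hθ.2, ← hθ'.1.2, hnc]

end Pool.Agent.H61C
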