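import Pool.Agent.Lib.H61C.Final

/-!
The explicit subexponential bound.
-/

set_option autoImplicit false

namespace Pool.Agent.H61C

open Finset

theorem minCentral_one : minCentral 1 ≤ 1 := by
  have h := minCentral_le (n := 1) one_pos 2 (by norm_num) 0 (by
    have h1 : (1 / 2 + 1 : ℕ) = 1 := by norm_num
    rw [h1]
    norm_num
    have := Real.exp_one_gt_d9
    rw [Real.exp_neg]
    rw [mul_inv_lt_iff₀ (Real.exp_pos 1)]
    linarith)
  simpa using h

theorem exp_aux (n : ℕ) (hn : 1 ≤ n) : 2 * (n : ℝ) ^ 2 < Real.exp (n + 3) := by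
  have h1 : (1 : ℝ) ≤ n := by exact_mod_cast hn
  have h2 := Real.add_one_le_exp ((n : ℝ) / 2)
  have h3 : (1 + (n : ℝ) / 2) ^ 2 ≤ Real.exp n := by
    calc (1 + (n : ℝ) / 2) ^ 2 ≤ (Real.exp ((n : ℝ) / 2)) ^ 2 := by
          apply pow_le_pow_left₀ (by positivity); linarith
      _ = Real.exp n := by rw [← Real.exp_nat_mul]; congr 1; push_cast; ring
  have h4 : (8 : ℝ) ≤ Real.exp 3 := by
    have := Real.add_one_le_exp (1 : ℝ)
    calc (8 : ℝ) = 2 ^ 3 := by norm_num
      _ ≤ Real.exp 1 ^ 3 := by gcongr; linarith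
      _ = Real.exp 3 := by rw [← Real.exp_nat_mul]; norm_num
  rw [Real.exp_add]
  nlinarith [Real.exp_pos (n : ℝ)]

theorem minCentral_three {n : ℕ} (hn : 0 < n) : minCentral n ≤ 3 ^ n := by
  have h1 := central_blockSet hn (Nat.succ_pos n) (gridLS_all hn) Fin.castSucc (n + 1) (by
    have h := exp_aux n hn
    have hle : -(((n + 1 : ℕ) : ℝ) + 1) ^ 2 / ((n + 1 : ℕ) : ℝ) ≤ -((n : ℝ) + 3) := by
      rw [div_le_iff₀ (by positivity)]
      push_cast
      nlinarith
    have h2 := Real.exp_le_exp.2 hle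
    calc 2 * (n : ℝ) ^ 2 * Real.exp (-(((n + 1 : ℕ) : ℝ) + 1) ^ 2 / ((n + 1 : ℕ) : ℝ))
        ≤ 2 * (n : ℝ) ^ 2 * Real.exp (-((n : ℝ) + 3)) := by gcongr
      _ < Real.exp (n + 3) * Real.exp (-((n : ℝ) + 3)) := by gcongr
      _ = 1 := by rw [← Real.exp_add]; simp)
  refine le_trans (Nat.sInf_le ⟨_, rfl, h1⟩) ?_
  refine (card_le_card (filter_subset _ _)).trans ?_
  rw [Fintype.card_piFinset]
  simp

theorem log_three_le : Real.log 3 ≤ 1.11 := by
  have : (3 : ℝ) ^ 10 < 2 ^ 16 := by norm_num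
  have h := Real.log_lt_log (by norm_num) this
  rw [Real.log_pow, Real.log_pow] at h
  have := Real.log_two_lt_d9
  norm_num at h ⊢
  linarith

theorem small_aux {n : ℕ} (h2 : 2 ≤ n) (h64 : n < 64) :
    (n : ℝ) * Real.log 3 ≤ 3 * Real.sqrt n * Real.log n := by
  have l2 := Real.log_two_gt_d9
  have l3 := log_three_le
  have l30 : 0 ≤ Real.log 3 := Real.log_nonneg (by norm_num)
  have hs : Real.sqrt n * Real.sqrt n = n := Real.mul_self_sqrt (by positivity)
  -- dyadic case distinction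
  have aux : ∀ (k : ℕ) (u : ℝ), 0 ≤ u → (2 : ℝ) ^ k ≤ n → (n : ℝ) ≤ u ^ 2 →
      u * 1.11 ≤ 3 * (k * Real.log 2) → Real.sqrt n * Real.log 3 ≤ 3 * Real.log n := by
    intro k u hu hk hn hle
    have h1 : Real.sqrt n ≤ u := by
      rw [Real.sqrt_le_left hu]; exact hn
    have h2 : (k : ℝ) * Real.log 2 ≤ Real.log n := by
      rw [← Real.log_pow]
      exact Real.log_le_log (by positivity) hk
    calc Real.sqrt n * Real.log 3 ≤ u * 1.11 := by gcongr
      _ ≤ 3 * (k * Real.log 2) := hle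
      _ ≤ 3 * Real.log n := by gcongr
  have key : Real.sqrt n * Real.log 3 ≤ 3 * Real.log n := by
    rcases lt_or_ge n 3 with h | h
    · have : n = 2 := by omega
      subst this
      exact aux 1 1.5 (by norm_num) (by norm_num) (by norm_num) (by norm_num; linarith)
    rcases lt_or_ge n 4 with h4 | h4
    · have : n = 3 := by omega
      subst this
      have h5 : Real.sqrt ((3 : ℕ) : ℝ) ≤ 3 := by
        rw [Real.sqrt_le_left (by norm_num)]; norm_num
      push_cast at h5 ⊢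
      nlinarith
    rcases lt_or_ge n 8 with h8 | h8
    · refine aux 2 3 (by norm_num) ?_ ?_ (by norm_num; linarith)
      · exact_mod_cast h4
      · have : (n : ℝ) ≤ 8 := by exact_mod_cast h8.le
        linarith
    rcases lt_or_ge n 16 with h16 | h16
    · refine aux 3 4 (by norm_num) ?_ ?_ (by norm_num; linarith)
      · exact_mod_cast h8
      · have : (n : ℝ) ≤ 16 := by exact_mod_cast h16.le
        linarith
    rcases lt_or_ge n 32 with h32 | h32
    · refine aux 4 6 (by norm_num) ?_ ?_ (by norm_num; linarith)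
      · exact_mod_cast h16
      · have : (n : ℝ) ≤ 32 := by exact_mod_cast h32.le
        linarith
    · refine aux 5 8 (by norm_num) ?_ ?_ (by norm_num; linarith)
      · exact_mod_cast h32
      · have : (n : ℝ) ≤ 64 := by exact_mod_cast h64.le
        linarith
  calc (n : ℝ) * Real.log 3 = Real.sqrt n * (Real.sqrt n * Real.log 3) := by rw [← mul_assoc, hs]
    _ ≤ Real.sqrt n * (3 * Real.log n) := by gcongr
    _ = _ := by ring

theorem large_aux {n : ℕ} (h64 : 64 ≤ n) :
    ∃ r : ℕ, 2 * (n : ℝ) ^ 2 *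
        Real.exp (-((r : ℝ) + 1) ^ 2 / ((n / Nat.log 2 n + 1 : ℕ) : ℝ)) < 1 ∧
      (r : ℝ) * Real.log (((n / Nat.log 2 n + 1) * 2 ^ (Nat.log 2 n + 1) : ℕ) : ℝ) ≤
        3 * Real.sqrt n * Real.log n := by
  set b := Nat.log 2 n with hb
  set m := n / b + 1 with hm
  have l2 := Real.log_two_gt_d9
  have l2' := Real.log_two_lt_d9
  have hn0 : (0 : ℝ) < n := by positivity
  have hb6 : 6 ≤ b := by
    rw [hb]
    exact (Nat.le_log_iff_pow_le (by norm_num) (by omega)).2 (by simpa using h64)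
  have hpow : 2 ^ b ≤ n := Nat.pow_log_le_self 2 (by omega)
  have hpow' : n < 2 ^ (b + 1) := Nat.lt_pow_succ_log_self (by norm_num) n
  set x := Real.log n with hx
  have hx1 : (b : ℝ) * Real.log 2 ≤ x := by
    rw [hx, ← Real.log_pow]
    exact Real.log_le_log (by positivity) (by exact_mod_cast hpow)
  have hx2 : x < ((b : ℝ) + 1) * Real.log 2 := by
    rw [hx]
    have := Real.log_lt_log hn0 (show (n : ℝ) < 2 ^ (b + 1) by exact_mod_cast hpow')
    rw [Real.log_pow] at this
    push_cast at this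
    exact this
  have hb6' : (6 : ℝ) ≤ b := by exact_mod_cast hb6
  have hx4 : 4 ≤ x := by nlinarith
  have hbpos : (0 : ℝ) < b := by linarith
  -- m ≤ n / b + 1
  have hm1 : (m : ℝ) ≤ n / b + 1 := by
    rw [hm]; push_cast
    have := @Nat.cast_div_le ℝ _ _ _ n b
    linarith
  -- x ≤ n / 15
  have hxn : x ≤ n / 15 := by
    -- log (n/64) ≤ n/64 - 1
    have h1 := Real.log_le_sub_one_of_pos (show (0 : ℝ) < n / 64 by positivity)
    rw [Real.log_div hn0.ne' (by norm_num)] at h1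
    have h2 : Real.log 64 = 6 * Real.log 2 := by
      rw [show (64 : ℝ) = 2 ^ 6 by norm_num, Real.log_pow]; norm_num
    have h3 : (64 : ℝ) ≤ n := by exact_mod_cast h64
    rw [h2] at h1
    have h4 : x ≤ n / 64 + 3.16 := by rw [hx]; linarith
    nlinarith
  -- (2x + log 2) * m ≤ 2 n
  have hL : m * (2 * x + Real.log 2) ≤ 2 * n := by
    have h1 : Real.log 2 ≤ x / 6 := by nlinarith
    -- n / b ≤ 1.2 n log 2 / x
    have h2 : x ≤ 7 / 6 * b * Real.log 2 := by nlinarith
    have h3 : (n / b) * x ≤ n * (7 / 6 * Real.log 2) := by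
      rw [div_mul_eq_mul_div, div_le_iff₀ hbpos]
      nlinarith
    have h4 : (m : ℝ) * (2 * x + Real.log 2) ≤ (n / b + 1) * (13 / 6 * x) := by
      have : (2 * x + Real.log 2) ≤ 13 / 6 * x := by linarith
      have h5 : 0 ≤ 2 * x + Real.log 2 := by linarith
      calc (m : ℝ) * (2 * x + Real.log 2) ≤ (n / b + 1) * (2 * x + Real.log 2) := by gcongr
        _ ≤ (n / b + 1) * (13 / 6 * x) := by gcongr
    calc (m : ℝ) * (2 * x + Real.log 2) ≤ (n / b + 1) * (13 / 6 * x) := h4
      _ = 13 / 6 * ((n / b) * x) + 13 / 6 * x := by ring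
      _ ≤ 13 / 6 * (n * (7 / 6 * Real.log 2)) + 13 / 6 * (n / 15) := by gcongr
      _ ≤ 2 * n := by nlinarith
  set r := Nat.floor (Real.sqrt (2 * n)) with hr
  have hr1 : Real.sqrt (2 * n) < r + 1 := Nat.lt_floor_add_one _
  have hr2 : (r : ℝ) ≤ Real.sqrt (2 * n) := Nat.floor_le (Real.sqrt_nonneg _)
  have hmpos : (0 : ℝ) < m := by rw [hm]; positivity
  refine ⟨r, ?_, ?_⟩
  · have h1 : 2 * (n : ℝ) < ((r : ℝ) + 1) ^ 2 := by
      have h2 : Real.sqrt (2 * n) ^ 2 = 2 * n := Real.sq_sqrt (by positivity)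
      rw [← h2]
      exact pow_lt_pow_left₀ hr1 (Real.sqrt_nonneg _) (by norm_num)
    have h2 : 2 * (n : ℝ) ^ 2 = Real.exp (2 * x + Real.log 2) := by
      rw [Real.exp_add, Real.exp_log (by norm_num), hx]
      have : Real.exp (2 * Real.log n) = (n : ℝ) ^ 2 := by
        rw [two_mul, Real.exp_add, Real.exp_log hn0]; ring
      rw [this]; ring
    rw [h2, ← Real.exp_add, Real.exp_lt_one_iff]
    have h3 : 2 * x + Real.log 2 < ((r : ℝ) + 1) ^ 2 / m := by
      rw [lt_div_iff₀ hmpos]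
      linarith
    have h4 : -((r : ℝ) + 1) ^ 2 / m = -(((r : ℝ) + 1) ^ 2 / m) := by rw [neg_div]
    rw [h4]; linarith
  · have hlog : Real.log (((n / b + 1) * 2 ^ (b + 1) : ℕ) : ℝ) ≤ 2 * x := by
      have h1 : (((n / b + 1) * 2 ^ (b + 1) : ℕ) : ℝ) ≤ (n : ℝ) ^ 2 := by
        have h2 : 2 ^ (b + 1) ≤ 2 * n := by rw [pow_succ]; omega
        have h3 : n / b + 1 ≤ n / 2 := by
          have h5 : n / b ≤ n / 6 := Nat.div_le_div_left hb6 (by norm_num)
          omega
        have h4 : (n / b + 1) * 2 ^ (b + 1) ≤ n ^ 2 := by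
          calc (n / b + 1) * 2 ^ (b + 1) ≤ (n / 2) * (2 * n) := Nat.mul_le_mul h3 h2
            _ = (n / 2 * 2) * n := by ring
            _ ≤ n * n := Nat.mul_le_mul_right n (Nat.div_mul_le_self n 2)
            _ = n ^ 2 := by ring
        exact_mod_cast h4
      have h2 : (0 : ℝ) < (((n / b + 1) * 2 ^ (b + 1) : ℕ) : ℝ) := by positivity
      calc Real.log (((n / b + 1) * 2 ^ (b + 1) : ℕ) : ℝ) ≤ Real.log ((n : ℝ) ^ 2) :=
            Real.log_le_log h2 h1
        _ = 2 * x := by rw [Real.log_pow, hx]; norm_num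
    have hs : Real.sqrt (2 * n) ≤ 3 / 2 * Real.sqrt n := by
      rw [Real.sqrt_mul (by norm_num)]
      have : Real.sqrt 2 ≤ 3 / 2 := by
        rw [Real.sqrt_le_left (by norm_num)]; norm_num
      gcongr
    calc (r : ℝ) * Real.log (((n / b + 1) * 2 ^ (b + 1) : ℕ) : ℝ)
        ≤ (3 / 2 * Real.sqrt n) * (2 * x) := by
          apply mul_le_mul (hr2.trans hs) hlog _ (by positivity)
          apply Real.log_nonneg
          have : 1 ≤ (n / b + 1) * 2 ^ (b + 1) := Nat.one_le_iff_ne_zero.2 (by positivity)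
          exact_mod_cast this
      _ = 3 * Real.sqrt n * x := by ring

/-- The subexponential upper bound. -/
theorem minCentral_subexp {n : ℕ} (hn : 1 ≤ n) :
    (minCentral n : ℝ) ≤ Real.exp (3 * Real.sqrt n * Real.log n) := by
  rcases lt_or_ge n 2 with h | h
  · have : n = 1 := by omega
    subst this
    simp only [Nat.cast_one, Real.log_one, mul_zero, Real.exp_zero]
    exact_mod_cast minCentral_one
  rcases lt_or_ge n 64 with h64 | h64
  · have h1 : (minCentral n : ℝ) ≤ 3 ^ n := by exact_mod_cast minCentral_three (by omega)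
    refine h1.trans ?_
    rw [← Real.exp_log (show (0 : ℝ) < 3 by norm_num), ← Real.exp_nat_mul,
      Real.exp_log (show (0 : ℝ) < 3 by norm_num)]
    exact Real.exp_le_exp.2 (small_aux h h64)
  · obtain ⟨r, hr1, hr2⟩ := large_aux h64
    have hb : 0 < Nat.log 2 n := Nat.log_pos (by norm_num) h
    have h1 := minCentral_le (by omega) (Nat.log 2 n) hb r hr1
    have h2 : (minCentral n : ℝ) ≤
        ((((n / Nat.log 2 n + 1) * 2 ^ (Nat.log 2 n + 1) : ℕ)) : ℝ) ^ r := by exact_mod_cast h1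
    refine h2.trans ?_
    have hpos : (0 : ℝ) < ((((n / Nat.log 2 n + 1) * 2 ^ (Nat.log 2 n + 1) : ℕ)) : ℝ) := by
      positivity
    rw [← Real.exp_log hpos, ← Real.exp_nat_mul]
    exact Real.exp_le_exp.2 hr2

end Pool.Agent.H61C
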